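import Pool.Agent.H91.TJ.Step
import Pool.Agent.H39.TJ.MOM
import Pool.Agent.H39.TJ.AVG
import Pool.Agent.H27.TJ.Csl
import Pool.Agent.H27.TJ.Dic
import Pool.Agent.H48.TJ.CHO
import Pool.Agent.H48.TJ.UB3
import Pool.Agent.H85.TJ.PUR
import Pool.Agent.H85.TJ.NU1
import Pool.Agent.H85.TJ.NU2
import Pool.Agent.H85.TJ.COR
import Pool.Agent.H85.TJ.RES

set_option autoImplicit false

/-!
# 3SUM-Indexing: quadratic space, if only one of the cells read depends on both arrays, at any address

**Model** (`SumJDS`). Two arrays `A`, `B` of `n` integers from `0, …, n ^ 2` are preprocessed. The
joint memory has `s` cells of `w` bits, which are *arbitrary* functions of both arrays; in addition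
there is an unlimited memory with arbitrary functions of `A` alone and of `B` alone. On a query `z`
the algorithm first makes any adaptive probes of the one-sided memory (more generally, it runs a
communication protocol of at most `b` bits between the two arrays, the messages being arbitrary
functions of `z`, of one of the arrays and of the messages sent before; `T` probes of cells of `w`
bits are such a protocol with `b = w T`). The result is the address of a joint cell, which is read;
then a second protocol of at most `b` bits, which may depend on everything seen so far, gives the
answer.

**Result.** If all queries `z < n ^ 2` are answered correctly for all arrays, then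

  `n ^ 2 ≤ 10 ^ 62 * w ^ 9 * (b + l) ^ 6 * s`, where `l = ⌈2 log₂ n⌉`.

So `Ω(n ^ 2 / polylog n)` joint cells are necessary for polylogarithmic query time and words (or even
blocks of words) of polylogarithmic length. One joint cell read directly at the address `z` suffices
with `s = n ^ 2` cells of one bit. In `AdaptiveJointProbe` the address of the joint cell was a
function of `z` and of the first array (and of random bits). Here it depends on both arrays, in any
way the query algorithm can find out; for this the structure has to be correct for all arrays.

**Proof.** As in `AdaptiveJointProbe` the structure decides for all `k ^ 2` pairs whether the sets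
`X i` and `Y j` of two families are disjoint; here `X`, `Y` have independent elements with density
`α = 1 / M` in a universe of `u = M ^ 2 / 768` elements, so that a pair meets with probability about
`1 / 768`. If `k ^ 2 > 2 m s`, then for typical `X`, `Y` there are `m` disjoint pairs for which the
same joint cell is read. Averaging gives fixed pairs `D`, a fixed cell and a rectangle `F × G` such
that this cell is read for all pairs in `D` on `F × G`, and the points of `F × G` where all
pairs in `D` are disjoint have measure `x ≥ 2 ^ (-q)`, `q = m (b + l) + 1`. But `F × G` may consist
mainly of other points, where most pairs of `D` meet in elements which are known to the algorithm.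
Purification: reveal, for `F` and `G`, the coordinates which are true with conditional probability
at least `4 α`. If the pairs of `D` meet in these coordinates with probability at least `1 / 4` on
`F × G`, then by the inequality of Cauchy and Schwarz there are values of these coordinates such
that `y ν / x ^ 2` decreases by the factor `7 / 8`, where `y` is the measure of the rectangle and
`ν` that of the set of all points with the revealed values. As `y ν ≥ x ^ 2` always, this ends after
`O(q)` steps, with a rectangle of measure `2 ^ (-O(q ^ 3))` in which at most half of the pairs of `D`
meet with probability at least `1 / 2`. The content of the cell has only `2 ^ w` values, and for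
each value the protocols are right on `D` with a relative probability of at most `exp (- 5 w) 2`
by the corruption inequality of `AdaptiveJointProbe` for overlapping pairs of sets.
-/

namespace Pool.Agent.Results.MP_e016b3_lc.TwoSidedAddress

open Pool.Agent.H91.TJ

/-- **3SUM-Indexing with one joint probe at an address which depends on both arrays.** -/
theorem result (n w b l s : ℕ) (hw : 1 ≤ w) (hb : 1 ≤ b) (hl : n ^ 2 ≤ 2 ^ l)
    (D : SumJDS n w s) (hbits : D.Bits b) (h : D.Solves) :
    n ^ 2 ≤ 10 ^ 62 * w ^ 9 * (b + l) ^ 6 * s := by
  have hMOM : S_MOM := Pool.Agent.H39.TJ.t_MOM
  have hAVG : S_AVG := Pool.Agent.H39.TJ.t_AVG hMOM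
  have hSTEP : S_STEP :=
    t_STEP hMOM (Pool.Agent.H39.TJ.t_CNT hAVG) (Pool.Agent.H39.TJ.t_SIZ hAVG)
      Pool.Agent.H27.TJ.t_CSL Pool.Agent.H27.TJ.t_DIC
  have hPUR : S_PUR := H85.TJ.t_PUR hSTEP
  have hCOR : S_COR :=
    H85.TJ.t_COR H48.TJ.t_CHO hPUR H48.TJ.t_UB3 H85.TJ.t_NU1 H85.TJ.t_NU2
  exact H85.TJ.t_RES hCOR n w b l s hw hb hl D hbits h

end Pool.Agent.Results.MP_e016b3_lc.TwoSidedAddress
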